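import Mathlib
import Pool.Agent.helper81.DI.SpecA

/-!
# Project di (MP_baa4d7_al), module A6: recursion for radical chains
-/

set_option autoImplicit false

namespace Pool.Agent.DI

open Pool.Agent.helper58.DC

section

variable {Γ : Type} [Group Γ]

open Classical in
theorem A6_nrm_insert (P : Subgroup Γ) (C : Finset (Subgroup Γ)) :
    nrm (insert P C) = nz P ⊓ nrm C := by
  unfold nrm
  simp only [Finset.mem_insert, iInf_or, iInf_inf_eq, iInf_iInf_eq_left]

theorem A6_nrm_le {P : Subgroup Γ} {C : Finset (Subgroup Γ)} (h : P ∈ C) : nrm C ≤ nz P :=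
  iInf₂_le_of_le P h le_rfl

open Classical in
theorem A6_ins {p : ℕ} {L P₀ P₁ : Subgroup Γ} {C' : Finset (Subgroup Γ)} (h0 : IsOp p L P₀)
    (h01 : P₀ < P₁) (h1 : IsOp p (L ⊓ nz P₁) P₁) (hC : RadIn p (L ⊓ nz P₁) C') :
    RadIn p L (insert P₀ C') ∧ P₀ ∉ C' ∧ P₁ ∈ C' ∧ ∀ Q ∈ C', P₁ ≤ Q := by
  obtain ⟨Q₁, hQ₁, hmin, hop, hrad⟩ := hC.rad
  have hQ : Q₁ = P₁ := hop.unique h1
  subst hQ
  have hnot : P₀ ∉ C' := fun h => absurd (hmin P₀ h) (not_le_of_gt h01)
  have hLn : L ≤ nz P₀ := h0.1.2.2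
  refine ⟨⟨?_, ?_, P₀, Finset.mem_insert_self _ _, ?_, h0, ?_⟩, hnot, hQ₁, hmin⟩
  · rw [Finset.coe_insert]
    exact hC.chain.insert fun Q hQ _ => Or.inl (h01.le.trans (hmin Q hQ))
  · intro P hP
    rcases Finset.mem_insert.1 hP with rfl | hP
    · exact h0.1.2.1
    · exact hC.pg P hP
  · intro P hP
    rcases Finset.mem_insert.1 hP with rfl | hP
    · exact le_rfl
    · exact h01.le.trans (hmin P hP)
  · intro P hP hne
    have hP' : P ∈ C' := (Finset.mem_insert.1 hP).resolve_left hne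
    have hf : (insert P₀ C').filter (· ≤ P) = insert P₀ (C'.filter (· ≤ P)) := by
      rw [Finset.filter_insert, if_pos (h01.le.trans (hmin P hP'))]
    have hkey : L ⊓ nrm ((insert P₀ C').filter (· ≤ P)) = L ⊓ nrm (C'.filter (· ≤ P)) := by
      rw [hf, A6_nrm_insert, ← inf_assoc, inf_eq_left.2 hLn]
    rw [hkey]
    by_cases hPQ : P = Q₁
    · subst hPQ
      have hff : C'.filter (· ≤ P) = {P} := by
        ext Q
        simp only [Finset.mem_filter, Finset.mem_singleton]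
        constructor
        · rintro ⟨hQ, hle⟩
          exact le_antisymm hle (hmin Q hQ)
        · rintro rfl
          exact ⟨hP', le_rfl⟩
      rw [hff]
      have : nrm ({P} : Finset (Subgroup Γ)) = nz P := by simp [nrm]
      rw [this]
      exact hop
    · have h2 := hrad P hP' hPQ
      have hmem : Q₁ ∈ C'.filter (· ≤ P) := Finset.mem_filter.2 ⟨hQ₁, hmin P hP'⟩
      have h3 : nz Q₁ ⊓ nrm (C'.filter (· ≤ P)) = nrm (C'.filter (· ≤ P)) :=
        inf_eq_right.2 (A6_nrm_le hmem)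
      rw [inf_assoc, h3] at h2
      exact h2

open Classical in
theorem A6_er {p : ℕ} {L P₀ : Subgroup Γ} {C : Finset (Subgroup Γ)} (h0 : IsOp p L P₀)
    (hC : RadIn p L C) (hne : C ≠ {P₀}) :
    ∃ P₁ : Subgroup Γ, (P₀ < P₁ ∧ P₁ ≤ L ∧ IsOp p (L ⊓ nz P₁) P₁) ∧
      RadIn p (L ⊓ nz P₁) (C.erase P₀) ∧ P₀ ∈ C := by
  obtain ⟨Q₀, hQ₀, hmin, hop, hrad⟩ := hC.rad
  have hQ : Q₀ = P₀ := hop.unique h0
  subst hQ
  have hLn : L ≤ nz Q₀ := h0.1.2.2
  have hnonempty : (C.erase Q₀).Nonempty := by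
    rw [Finset.nonempty_iff_ne_empty]
    intro h
    apply hne
    ext Q
    rw [Finset.mem_singleton]
    constructor
    · intro hQ
      by_contra hcon
      have : Q ∈ C.erase Q₀ := Finset.mem_erase.2 ⟨hcon, hQ⟩
      rw [h] at this
      simp at this
    · rintro rfl
      exact hQ₀
  obtain ⟨P₁, hP₁⟩ := (C.erase Q₀).exists_minimal hnonempty
  have hP₁e : P₁ ∈ C.erase Q₀ := hP₁.1
  have hP₁C : P₁ ∈ C := Finset.mem_of_mem_erase hP₁e
  have hP₁ne : P₁ ≠ Q₀ := Finset.ne_of_mem_erase hP₁e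
  have hmin1 : ∀ Q ∈ C.erase Q₀, P₁ ≤ Q := by
    intro Q hQ
    rcases hC.chain.total (Finset.mem_coe.2 hP₁C) (Finset.mem_coe.2 (Finset.mem_of_mem_erase hQ))
      with h | h
    · exact h
    · exact hP₁.2 hQ h
  have hlt : Q₀ < P₁ := lt_of_le_of_ne (hmin P₁ hP₁C) (Ne.symm hP₁ne)
  -- the truncations
  have hkey : ∀ P ∈ C, Q₀ ≤ P → L ⊓ nrm (C.filter (· ≤ P)) = L ⊓ nrm ((C.erase Q₀).filter (· ≤ P)) := by
    intro P hP hle
    have hf : C.filter (· ≤ P) = insert Q₀ ((C.erase Q₀).filter (· ≤ P)) := by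
      ext Q
      simp only [Finset.mem_filter, Finset.mem_insert, Finset.mem_erase]
      constructor
      · rintro ⟨h1, h2⟩
        by_cases h : Q = Q₀
        · exact Or.inl h
        · exact Or.inr ⟨⟨h, h1⟩, h2⟩
      · rintro (h | ⟨⟨-, h1⟩, h2⟩)
        · rw [h]
          exact ⟨hQ₀, hle⟩
        · exact ⟨h1, h2⟩
    rw [hf, A6_nrm_insert, ← inf_assoc, inf_eq_left.2 hLn]
  have hop1 : IsOp p (L ⊓ nz P₁) P₁ := by
    have h2 := hrad P₁ hP₁C hP₁ne
    rw [hkey P₁ hP₁C hlt.le] at h2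
    have hff : (C.erase Q₀).filter (· ≤ P₁) = {P₁} := by
      ext Q
      simp only [Finset.mem_filter, Finset.mem_singleton]
      constructor
      · rintro ⟨hQ, hle⟩
        exact le_antisymm hle (hmin1 Q hQ)
      · rintro rfl
        exact ⟨hP₁e, le_rfl⟩
    rw [hff] at h2
    have : nrm ({P₁} : Finset (Subgroup Γ)) = nz P₁ := by simp [nrm]
    rwa [this] at h2
  refine ⟨P₁, ⟨hlt, hop1.1.1.trans inf_le_left, hop1⟩, ⟨?_, ?_, P₁, hP₁e, hmin1, hop1, ?_⟩, hQ₀⟩
  · exact hC.chain.mono (by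
      rw [Finset.coe_erase]
      exact Set.sdiff_subset)
  · intro P hP
    exact hC.pg P (Finset.mem_of_mem_erase hP)
  · intro P hP hPne
    have hPC : P ∈ C := Finset.mem_of_mem_erase hP
    have hPQ : P ≠ Q₀ := Finset.ne_of_mem_erase hP
    have h2 := hrad P hPC hPQ
    rw [hkey P hPC (hmin P hPC)] at h2
    have hmem : P₁ ∈ (C.erase Q₀).filter (· ≤ P) := Finset.mem_filter.2 ⟨hP₁e, hmin1 P hP⟩
    have h3 : nz P₁ ⊓ nrm ((C.erase Q₀).filter (· ≤ P)) = nrm ((C.erase Q₀).filter (· ≤ P)) :=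
      inf_eq_right.2 (A6_nrm_le hmem)
    rw [inf_assoc, h3]
    exact h2

open Classical in
theorem A6_sing {p : ℕ} {L P₀ : Subgroup Γ} (h0 : IsOp p L P₀) : RadIn p L {P₀} := by
  refine ⟨?_, ?_, P₀, Finset.mem_singleton_self _, ?_, h0, ?_⟩
  · rw [Finset.coe_singleton]
    exact Set.subsingleton_singleton.isChain
  · intro P hP
    rw [Finset.mem_singleton] at hP
    subst hP
    exact h0.1.2.1
  · intro P hP
    rw [Finset.mem_singleton] at hP
    exact hP.ge
  · intro P hP hne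
    rw [Finset.mem_singleton] at hP
    exact absurd hP hne

end

open Classical in
/-- A6: recursion for radical chains. -/
theorem A6 : A6_stmt := by
  intro Γ _ _ p _ L P₀ M g h0
  have hfin : ∀ s : Set (Finset (Subgroup Γ)), s.Finite := fun s => s.toFinite
  set S : Set (Subgroup Γ) := {P₁ : Subgroup Γ | P₀ < P₁ ∧ P₁ ≤ L ∧ IsOp p (L ⊓ nz P₁) P₁} with hS
  have hdec : {C : Finset (Subgroup Γ) | RadIn p L C} =
      {({P₀} : Finset (Subgroup Γ))} ∪
        ⋃ P₁ ∈ S, (fun C' => insert P₀ C') '' {C' : Finset (Subgroup Γ) | RadIn p (L ⊓ nz P₁) C'} := by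
    apply Set.Subset.antisymm
    · intro C hC
      by_cases hne : C = {P₀}
      · left; exact hne
      · right
        obtain ⟨P₁, hP₁, hr, hmem⟩ := A6_er h0 hC hne
        refine Set.mem_iUnion₂.2 ⟨P₁, hP₁, C.erase P₀, hr, ?_⟩
        exact Finset.insert_erase hmem
    · rintro C (hC | hC)
      · rw [Set.mem_singleton_iff] at hC
        subst hC
        exact A6_sing h0
      · obtain ⟨P₁, hP₁, C', hC', rfl⟩ := Set.mem_iUnion₂.1 hC
        exact (A6_ins h0 hP₁.1 hP₁.2.2 hC').1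
  unfold rSum
  rw [hdec, finsum_mem_union]
  · have e1 : ∑ᶠ C ∈ ({({P₀} : Finset (Subgroup Γ))} : Set (Finset (Subgroup Γ))),
        (-1 : ℤ) ^ (C.card + 1) * g (M ⊓ nrm C) = g (M ⊓ nz P₀) := by
      rw [finsum_mem_singleton]
      have : nrm ({P₀} : Finset (Subgroup Γ)) = nz P₀ := by simp [nrm]
      rw [this]
      simp
    rw [e1, sub_eq_add_neg]
    congr 1
    rw [finsum_mem_biUnion]
    · rw [← finsum_mem_neg_distrib _ (S.toFinite)]
      apply finsum_mem_congr rfl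
      intro P₁ hP₁
      rw [finsum_mem_image]
      · rw [← finsum_mem_neg_distrib _ (hfin _)]
        apply finsum_mem_congr rfl
        intro C' hC'
        obtain ⟨-, hnot, -, -⟩ := A6_ins h0 hP₁.1 hP₁.2.2 hC'
        rw [Finset.card_insert_of_notMem hnot, A6_nrm_insert, ← inf_assoc, pow_succ]
        ring
      · intro C' hC' C'' hC'' heq
        have h1 := (A6_ins h0 hP₁.1 hP₁.2.2 hC').2.1
        have h2 := (A6_ins h0 hP₁.1 hP₁.2.2 hC'').2.1
        simp only at heq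
        rw [← Finset.erase_insert h1, ← Finset.erase_insert h2, heq]
    · intro P₁ hP₁ P₂ hP₂ hne
      rw [Function.onFun, Set.disjoint_left]
      rintro C ⟨C', hC', rfl⟩ ⟨C'', hC'', heq⟩
      obtain ⟨-, h1, h1m, h1l⟩ := A6_ins h0 hP₁.1 hP₁.2.2 hC'
      obtain ⟨-, h2, h2m, h2l⟩ := A6_ins h0 hP₂.1 hP₂.2.2 hC''
      simp only at heq
      have hCC : C'' = C' := by
        rw [← Finset.erase_insert h1, ← Finset.erase_insert h2, heq]
      subst hCC
      exact hne (le_antisymm (h1l _ h2m) (h2l _ h1m))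
    · exact S.toFinite
    · intro P₁ _
      exact hfin _
  · rw [Set.disjoint_left]
    rintro C hC hC2
    rw [Set.mem_singleton_iff] at hC
    subst hC
    obtain ⟨P₁, hP₁, C', hC', heq⟩ := Set.mem_iUnion₂.1 hC2
    obtain ⟨-, h1, h1m, h1l⟩ := A6_ins h0 hP₁.1 hP₁.2.2 hC'
    have : P₁ ∈ ({P₀} : Finset (Subgroup Γ)) := by
      rw [← heq]
      exact Finset.mem_insert_of_mem h1m
    rw [Finset.mem_singleton] at this
    exact absurd this hP₁.1.ne'
  · exact hfin _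
  · exact hfin _

end Pool.Agent.DI
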